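import Mathlib
import Pool.Agent.Q146.HexGeom

set_option autoImplicit false

/-! # Regular hexagons can be marked so as to give spirals with any number of arms -/

namespace Pool.Agent.Results.MP_f80956_co.HexagonArms

open Pool.Agent.Results.MP_ca213f_co.AllArms (V Adj Plane lerp edge edges_meet curve
  curve_isClosedEmbedding range_curve unbounded_of_injective finite_lattice)
open Pool.Agent.Q146.HexComb (IsSide SF arm arm_succ arm_step arm_injective exists_side covered)
open Pool.Agent.Q146.HexGeom (s3 H hx hx_isClosedEmbedding base base_arc base_sub tile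
  exists_iso Brick tiles_cover tiles_disjoint)

/-- An arc: a homeomorphic image of the closed unit interval. -/
def IsArc (A : Set Plane) : Prop :=
  ∃ γ : Set.Icc (0 : ℝ) 1 → Plane, Topology.IsEmbedding γ ∧ Set.range γ = A

/-- An unbounded simple curve: the image of a proper continuous injective map from `[0, ∞)` or
from `ℝ` into the plane. -/
def IsUnboundedCurve (C : Set Plane) : Prop :=
  (∃ γ : ℝ → Plane, IsProperMap γ ∧ Function.Injective γ ∧ Set.range γ = C) ∨
    (∃ γ : Set.Ici (0 : ℝ) → Plane, IsProperMap γ ∧ Function.Injective γ ∧ Set.range γ = C)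

/-- The regular hexagon with sides of length `1`: all points whose scalar products with the three
unit vectors `(1, 0)`, `(1/2, √3/2)` and `(1/2, -√3/2)` have absolute value at most `√3/2`. -/
def hexagon : Set Plane :=
  {z | |z 0| ≤ √3 / 2 ∧ |z 0 / 2 + √3 / 2 * z 1| ≤ √3 / 2 ∧ |z 0 / 2 - √3 / 2 * z 1| ≤ √3 / 2}

/-- A monohedral tiling with the regular hexagon as prototile, together with a marking: the tiles
are the images `σ i '' hexagon`, and the tile `σ i '' hexagon` carries the arcs `σ i '' A`,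
`A ∈ M`. -/
structure MarkedTiling (ι : Type) where
  M : Set (Set Plane)
  finite : M.Finite
  nonempty : M.Nonempty
  arcs : ∀ A ∈ M, IsArc A ∧ A ⊆ hexagon
  σ : ι → (Plane ≃ᵢ Plane)
  countable : Countable ι
  cover : ⋃ i, σ i '' hexagon = Set.univ
  disjoint : ∀ i j, i ≠ j → Disjoint (interior (σ i '' hexagon)) (interior (σ j '' hexagon))

/-- The union of the marked arcs over all tiles. -/
def MarkedTiling.U {ι : Type} (m : MarkedTiling ι) : Set Plane := ⋃ i, ⋃ A ∈ m.M, m.σ i '' A

/-- The marked tiling is an `n`-armed spiral: the union of the marked arcs is the union of exactly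
`n` pairwise disjoint unbounded simple curves. -/
def MarkedTiling.IsSpiral {ι : Type} (m : MarkedTiling ι) (n : ℕ) : Prop :=
  ∃ C : Fin n → Set Plane, (∀ i, IsUnboundedCurve (C i)) ∧
    (∀ i j, i ≠ j → Disjoint (C i) (C j)) ∧ m.U = ⋃ i, C i

theorem hexagon_eq : hexagon = H := rfl

/-- The isometry belonging to a brick. -/
theorem exists_sigma {n : ℕ} (hn : 1 ≤ n) (f : Brick) : ∃ (g : Plane ≃ᵢ Plane) (u v k : V),
    SF n u v k ∧ (∀ u' v', SF n u' v' f.1 → u' = u ∧ v' = v) ∧
      g '' H = tile f.1 ∧ g '' base = hx '' edge u v := by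
  by_cases h : ∃ u v, SF n u v f.1
  · obtain ⟨u, v, h⟩ := h
    obtain ⟨g, h1, h2⟩ := exists_iso h.isSide
    refine ⟨g, u, v, f.1, h, ?_, h1, h2⟩
    intro u' v' h'
    obtain ⟨h3, h4, -⟩ := h'.unique (by omega) h (Or.inr (Or.inr rfl))
    exact ⟨h3, h4⟩
  · obtain ⟨u, v, k, h3, h4⟩ := exists_side (n := (n : ℤ)) (by omega) f.1 f.2
    obtain ⟨g, h1, h2⟩ := exists_iso h4
    exact ⟨g, u, v, k, h3, fun u' v' h' => absurd ⟨u', v', h'⟩ h, h1, h2⟩

/-- The isometry of a tile. -/
noncomputable def sigma {n : ℕ} (hn : 1 ≤ n) (f : Brick) : Plane ≃ᵢ Plane :=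
  (exists_sigma hn f).choose

theorem sigma_tile {n : ℕ} (hn : 1 ≤ n) (f : Brick) : sigma hn f '' H = tile f.1 := by
  obtain ⟨u, v, k, -, -, h, -⟩ := (exists_sigma hn f).choose_spec
  exact h

/-- The marked tiling with `n` arms. -/
noncomputable def mark {n : ℕ} (hn : 1 ≤ n) : MarkedTiling Brick where
  M := {base}
  finite := Set.finite_singleton _
  nonempty := Set.singleton_nonempty _
  arcs := by
    rintro A hA
    rw [Set.mem_singleton_iff] at hA
    subst hA
    exact ⟨base_arc, base_sub⟩
  σ := sigma hn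
  countable := inferInstance
  cover := by
    rw [hexagon_eq]
    simp only [sigma_tile]
    exact tiles_cover
  disjoint := by
    intro f g h
    rw [hexagon_eq, sigma_tile, sigma_tile]
    exact tiles_disjoint f g h

theorem mark_U {n : ℕ} (hn : 1 ≤ n) :
    (mark hn).U = ⋃ i : Fin n, hx '' ⋃ l, edge (arm i l) (arm i (l + 1)) := by
  ext z
  simp only [MarkedTiling.U, mark, Set.mem_iUnion, Set.mem_singleton_iff, exists_prop,
    exists_eq_left]
  constructor
  · rintro ⟨f, hz⟩
    obtain ⟨u, v, k, h1, -, -, h2⟩ := (exists_sigma hn f).choose_spec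
    have h3 : z ∈ hx '' edge u v := by
      rw [← h2]
      exact hz
    obtain ⟨i, l, hl⟩ := covered hn h1
    refine ⟨i, ?_⟩
    have h4 : arm i (l + 1) = v := by
      rw [arm_succ, hl]
      exact h1.nx_eq (by omega)
    have h5 : edge u v ⊆ ⋃ l, edge (arm i l) (arm i (l + 1)) := by
      rw [← hl, ← h4]
      exact Set.subset_iUnion (fun l => edge (arm i l) (arm i (l + 1))) l
    exact Set.image_mono h5 h3
  · rintro ⟨i, w, hw, rfl⟩
    obtain ⟨l, hl⟩ := Set.mem_iUnion.1 hw
    obtain ⟨f, hf⟩ := arm_step hn i l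
    refine ⟨⟨f, hf.isSide.1⟩, ?_⟩
    obtain ⟨u, v, k, -, h1, -, h2⟩ := (exists_sigma hn ⟨f, hf.isSide.1⟩).choose_spec
    obtain ⟨h3, h4⟩ := h1 _ _ hf
    show hx w ∈ sigma hn ⟨f, hf.isSide.1⟩ '' base
    unfold sigma
    rw [h2, ← h3, ← h4]
    exact ⟨w, hl, rfl⟩

/-- For every positive integer `n` the regular hexagon can be marked so that, for a monohedral
tiling with the hexagon as prototile, the marked tiling is an `n`-armed spiral. -/
theorem result (n : ℕ) (hn : 0 < n) : ∃ (ι : Type) (m : MarkedTiling ι), m.IsSpiral n := by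
  have hn' : 1 ≤ n := hn
  have hadj : ∀ (i : Fin n) (l : ℕ), Adj (arm i l) (arm i (l + 1)) := fun i l => by
    obtain ⟨f, hf⟩ := arm_step hn' i l
    exact hf.adj
  have hinj : ∀ i : Fin n, Function.Injective (arm i) := fun i k l h =>
    (arm_injective hn' h).2
  refine ⟨Brick, mark hn', fun i => hx '' ⋃ l, edge (arm i l) (arm i (l + 1)), ?_, ?_, mark_U hn'⟩
  · intro i
    have hc := hx_isClosedEmbedding.comp (curve_isClosedEmbedding (hinj i) (hadj i))
    refine Or.inr ⟨hx ∘ curve (arm i), hc.isProperMap, hc.injective, ?_⟩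
    rw [Set.range_comp, range_curve]
  · intro i j hij
    rw [Set.disjoint_image_iff hx_isClosedEmbedding.injective, Set.disjoint_left]
    intro z hz hz'
    rw [← range_curve] at hz hz'
    obtain ⟨s, rfl⟩ := hz
    obtain ⟨t, h⟩ := hz'
    have hs := Nat.floor_le (show (0 : ℝ) ≤ s from s.2)
    have hs' := Nat.lt_floor_add_one (s : ℝ)
    have ht := Nat.floor_le (show (0 : ℝ) ≤ t from t.2)
    have ht' := Nat.lt_floor_add_one (t : ℝ)
    unfold curve at h
    rcases edges_meet (hadj j _) (hadj i _) (by linarith) (by linarith) (by linarith)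
      (by linarith) h with ⟨-, -, h3⟩ | ⟨h3, -⟩ | ⟨h3, -⟩
    · exact hij (arm_injective hn' h3).1.symm
    · exact hij (arm_injective hn' h3).1.symm
    · exact hij (arm_injective hn' h3).1.symm

end Pool.Agent.Results.MP_f80956_co.HexagonArms
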